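import Pool.Agent.Q228.SPF.Stmts
import Pool.Agent.Q228.SPF.TaskUnique
import Pool.Agent.Q228.SPF.TaskFixedB
import Pool.Agent.Q228.SPF.TaskFin
import Pool.Agent.Q228.SPF.TaskLim
import Pool.Agent.Q228.SPF.TaskBound
import Pool.Agent.Q228.SPF.TaskSW
import Pool.Agent.Q228.SPF.TaskS
import Pool.Agent.Q228.SPF.TaskSph
import Pool.Agent.Q228.SPF.TaskJoin
import Pool.Agent.Q228.SPF.TaskInj
import Pool.Agent.Q228.SPF.TaskSurj
import Pool.Agent.Q228.SPF.TaskRec
import Pool.Agent.Q228.SPF.TaskEmpty
import Pool.Agent.Q228.SPF.TaskStarB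
import Pool.Agent.Q228.SPF.TaskIso
import Pool.Agent.Q228.SPF.TaskUCard
import Pool.Agent.Q228.SPF.TaskU
import Pool.Agent.Q228.SPF.TaskDet
import Pool.Agent.Q228.SPF.TaskCoeff
import Pool.Agent.Q228.SPF.TaskAnc
import Pool.Agent.Q228.SPF.TaskAncInj
import Pool.Agent.Q228.SPF.TaskAncSurj
import Pool.Agent.Q228.SPF.TaskTree
import Pool.Agent.Q228.SPF.TaskPark

/-!
# MP_dc922b_co: spherical parking functions by degree and uprooted trees by surface inversions
-/

set_option autoImplicit false

open Finset Pool.Agent.Q228.SPF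
open scoped Classical

namespace Pool.Agent.Results.MP_dc922b_co.DegreesAndSurfaceInversions

/-- For all `n ≥ 1` and `k ≥ 0` the number of spherical parking functions of length `n` and degree
`C(n,2) - k + 1` is the number of uprooted trees on `n` vertices with `k` surface inversions. -/
theorem result : ∀ n k : ℕ, 1 ≤ n →
    Nat.card {a : Fin n → ℕ // Spherical a ∧ ∑ i, a i + k = n.choose 2 + 1} =
      Nat.card {T : Fin n × (Fin n → Fin n) // IsUprooted T.1 T.2 ∧ surf T.1 T.2 = k} := by
  intro n k hn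
  rw [TaskPark.main TaskSph.main TaskBound.main n k hn,
    TaskTree.main TaskAnc.main TaskAncInj.main TaskAncSurj.main n k]
  refine TaskCoeff.main _ _ _ _ _ _ ?_ k
  intro q hq
  have hfin := TaskFin.main TaskUnique.main TaskFixedB.main
  have hlim : ∀ (n : ℕ) (p : ℝ), 0 < p → p < 1 →
      (p / (1 - p)) ^ n = ∑ m ∈ Finset.range (n + 1), (n.choose m : ℝ) * SW m (fun c => p ^ c) *
        (p ^ max 2 (m + 1) / (1 - p)) ^ (n - m) := fun n p h0 h1 =>
    TaskLim.main n p h0 h1 fun L hL => hfin n L (fun c => p ^ c) hL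
  have hS := TaskS.main hlim (TaskSW.main TaskBound.main)
  have hrec := TaskRec.main TaskJoin.main TaskInj.main TaskSurj.main
  have hstar := TaskStarB.main hrec TaskEmpty.main
  have hU := TaskU.main hstar (TaskUCard.main TaskIso.main)
  have key := TaskDet.main q (Sg q) (Ug q) (fun n => (q ^ n - 1) * q ^ (n - 1).choose 2) hq
    (fun n hn => hS n q hn hq) (fun n hn => hU n q hn hq) n hn
  unfold Sg Ug U h at key
  rw [key, Finset.sum_sigma]

end Pool.Agent.Results.MP_dc922b_co.DegreesAndSurfaceInversions
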